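import Pool.Agent.J6H57.VT.Stm
import Pool.Agent.TH558.NS.Trans
import Pool.Agent.TH643.NS.Fij

/-!
# The vertex move: transfer of ranks from leading exponents to polynomials
-/

set_option autoImplicit false

namespace Pool.Agent.J6H30.VT

open Pool.Agent.J6H57.VT Pool.Agent.TH603.EL Pool.Agent.TH880.NB Pool.Agent.TH176.Nag
  Pool.Agent.TH266.NS Polynomial

variable {F : Type} [Field F]

theorem tz_mul (a b : ℝ) (i j k l : ℤ) :
    tz F a i j * tz F b k l = tz F (a + b) (i + k) (j + l) := by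
  unfold tz
  rw [HahnSeries.single_mul_single, AddMonoidAlgebra.single_mul_single, mul_one]
  rfl

theorem tz_zero : tz F 0 0 0 = 1 := rfl

theorem tz_pow (a : ℝ) (i j : ℤ) (n : ℕ) : tz F a i j ^ n = tz F (n * a) (n * i) (n * j) := by
  induction n with
  | zero => simp [tz_zero]
  | succ n ih =>
    rw [pow_succ, ih, tz_mul]
    congr 1 <;> push_cast <;> ring

/-- `x ↦ t z`, `u ↦ t ^ r Y` -/
noncomputable def sg (F : Type) [Field F] (r : ℝ) : F[X][X] →+* HR F :=
  eval₂RingHom (eval₂RingHom ((incl (F := F)).comp HahnSeries.C) (tz F 1 1 0)) (tz F r 0 1)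

theorem sg_C (r : ℝ) (p : F[X]) :
    sg F r (C p) = ∑ a ∈ p.support, incl (HahnSeries.C (p.coeff a)) * tz F 1 1 0 ^ a := by
  unfold sg
  rw [coe_eval₂RingHom, eval₂_C, coe_eval₂RingHom, eval₂_eq_sum]
  rfl

theorem sg_X (r : ℝ) : sg F r X = tz F r 0 1 := by
  unfold sg
  rw [coe_eval₂RingHom, eval₂_X]

theorem sg_CX (r : ℝ) : sg F r (C X) = tz F 1 1 0 := by
  unfold sg
  rw [coe_eval₂RingHom, eval₂_C, coe_eval₂RingHom, eval₂_X]

/-- a term -/
noncomputable def tm (r : ℝ) (a β : ℕ) (c : F) : HR F :=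
  HahnSeries.single (r * a + β) (AddMonoidAlgebra.single ((β : ℤ), (a : ℤ)) c)

theorem tm_eq (r : ℝ) (a β : ℕ) (c : F) :
    incl (HahnSeries.C c) * tz F 1 1 0 ^ β * tz F r 0 1 ^ a = tm r a β c := by
  rw [mul_assoc, tz_pow, tz_pow, tz_mul]
  unfold tz tm
  rw [HahnSeries.C_apply, Fij.incl_single, HahnSeries.single_mul_single,
    AddMonoidAlgebra.single_mul_single]
  congr 1
  · ring_nf
  · congr 1
    · simp
    · ring

theorem sg_eq (r : ℝ) (G : F[X][X]) :
    sg F r G = ∑ a ∈ G.support, ∑ β ∈ (G.coeff a).support, tm r a β ((G.coeff a).coeff β) := by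
  have h : sg F r G = ∑ a ∈ G.support, sg F r (C (G.coeff a)) * tz F r 0 1 ^ a := by
    conv_lhs => rw [G.as_sum_support_C_mul_X_pow]
    rw [map_sum]
    refine Finset.sum_congr rfl fun a _ => ?_
    rw [map_mul, map_pow, sg_X]
  rw [h]
  refine Finset.sum_congr rfl fun a _ => ?_
  rw [sg_C, Finset.sum_mul]
  exact Finset.sum_congr rfl fun β _ => tm_eq r a β _

theorem low_tm (r : ℝ) (a β : ℕ) (c : F) : Low (tm r a β c) (r * a + β) := low_single _ _

theorem sg_low {r : ℝ} {G : F[X][X]} {a β : ℕ} (h : IsLead r G a β) :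
    Low (sg F r G) (r * a + β) := by
  rw [sg_eq]
  refine Low.sum _ _ fun a' _ => Low.sum _ _ fun β' hβ' => ?_
  rw [mem_support_iff] at hβ'
  rcases h.2 a' β' hβ' with ⟨rfl, rfl⟩ | h1
  · exact low_tm _ _ _ _
  · exact (low_tm _ _ _ _).mono h1.le

theorem sg_coeff {r : ℝ} {G : F[X][X]} {a β : ℕ} (h : IsLead r G a β) :
    (sg F r G).coeff (r * a + β) =
      AddMonoidAlgebra.single ((β : ℤ), (a : ℤ)) ((G.coeff a).coeff β) := by
  have ha : a ∈ G.support := by
    rw [mem_support_iff]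
    intro h0
    apply h.1
    rw [h0, coeff_zero]
  have hβ : β ∈ (G.coeff a).support := by
    rw [mem_support_iff]
    exact h.1
  rw [sg_eq, HahnSeries.coeff_sum, Finset.sum_eq_single_of_mem a ha, HahnSeries.coeff_sum,
    Finset.sum_eq_single_of_mem β hβ]
  · unfold tm
    rw [HahnSeries.coeff_single_same]
  · intro β' hβ' hne
    rw [mem_support_iff] at hβ'
    rcases h.2 a β' hβ' with ⟨_, h1⟩ | h1
    · exact absurd h1 hne
    · exact low_tm _ _ _ _ _ h1
  · intro a' _ hne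
    rw [HahnSeries.coeff_sum]
    refine Finset.sum_eq_zero fun β' hβ' => ?_
    rw [mem_support_iff] at hβ'
    rcases h.2 a' β' hβ' with ⟨h1, _⟩ | h1
    · exact absurd h1 hne
    · exact low_tm _ _ _ _ _ h1

theorem rj (K : Par) : (K.j : ℝ) < K.r := by
  have hS : 0 < K.S := K.hS
  have hp : 0 < K.p := by unfold Par.p; linarith [K.hp]
  have hm : (0 : ℝ) < K.m := by
    have := K.hq
    have := K.hp
    have := K.hμ
    have := K.hν
    linarith
  have hpm : K.p < K.m := by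
    unfold Par.p
    have := K.hq
    have := K.hμ
    have := K.hν
    linarith
  have h1 : K.S * (K.r - K.j) = K.Z - K.p * K.m := by
    have h2 : K.S * ((K.Z - K.p * (K.p + K.q)) / K.S) = K.Z - K.p * (K.p + K.q) := by
      field_simp
    unfold Par.r
    have h3 : K.S * (K.μ + (K.Z - K.p * (K.p + K.q)) / K.S - K.j) =
        K.S * (K.μ - K.j) + K.S * ((K.Z - K.p * (K.p + K.q)) / K.S) := by ring
    rw [h3, h2]
    unfold Par.p Par.q Par.S
    ring
  have h4 : 0 < K.S * (K.r - K.j) := by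
    rw [h1]
    have := K.hZ
    nlinarith
  have h5 := (mul_pos_iff_of_pos_left hS).1 h4
  linarith

theorem sg_B (r : ℝ) (j : ℕ) :
    sg F r (C (X ^ j) - X) = tz F j j 0 * (1 - tz F (r - j) (-j) 1) := by
  rw [map_sub, map_pow, map_pow, sg_CX, sg_X, tz_pow, mul_sub, mul_one, tz_mul]
  simp

theorem exists_W {r : ℝ} {j : ℕ} (h : (j : ℝ) < r) :
    ∃ W : HR F, W * sg F r (C (X ^ j) - X) = 1 ∧ Low W (-(j : ℝ)) ∧
      W.coeff (-(j : ℝ)) = AddMonoidAlgebra.single (-(j : ℤ), 0) 1 := by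
  have h1 : IsUnit (1 - tz F (r - j) (-j) 1) := by
    apply HahnSeries.isUnit_of_orderTop_pos
    have e : (1 - tz F (r - j) (-j) 1) - 1 = - tz F (r - j) (-j) 1 := by ring
    rw [e, HahnSeries.orderTop_neg]
    unfold tz
    rw [HahnSeries.orderTop_single]
    · have : 0 < r - j := by linarith
      exact_mod_cast this
    · simp
  have h2 : IsUnit (sg F r (C (X ^ j) - X)) := by
    rw [sg_B]
    refine IsUnit.mul ?_ h1
    refine IsUnit.of_mul_eq_one (tz F (-j) (-j) 0) ?_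
    rw [tz_mul]
    simp [tz_zero]
  obtain ⟨W, hW⟩ := h2.exists_left_inv
  -- the leading term
  have hl : Low (sg F r (C (X ^ j) - X)) j := by
    rw [map_sub, map_pow, map_pow, sg_CX, sg_X, tz_pow, mul_one]
    exact (low_tz _ _ _).sub ((low_tz _ _ _).mono h.le)
  have hc : (sg F r (C (X ^ j) - X)).coeff j = AddMonoidAlgebra.single ((j : ℤ), 0) 1 := by
    rw [map_sub, map_pow, map_pow, sg_CX, sg_X, tz_pow, mul_one, HahnSeries.coeff_sub,
      coeff_tz, (low_tz r 0 1) _ h, sub_zero]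
    simp
  have hinv : (AddMonoidAlgebra.single ((j : ℤ), (0 : ℤ)) (1 : F)) *
      AddMonoidAlgebra.single (-(j : ℤ), (0 : ℤ)) (1 : F) = 1 := by
    rw [AddMonoidAlgebra.single_mul_single]
    simp [AddMonoidAlgebra.one_def]
    rfl
  have hWl : Low W (-(j : ℝ)) := by
    by_contra hcon
    unfold Low at hcon
    push Not at hcon
    obtain ⟨a, ha, ha2⟩ := hcon
    have hW0 : W ≠ 0 := by
      rintro rfl
      exact ha2 rfl
    have hlow : Low W W.order := fun b hb => HahnSeries.coeff_eq_zero_of_lt_order hb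
    have hord : W.order ≤ a := HahnSeries.order_le_of_coeff_ne_zero ha2
    have h3 := hlow.coeff_mul hl
    rw [hW, hc, HahnSeries.coeff_one, if_neg (by linarith)] at h3
    have h4 : W.coeff W.order = 0 := by
      calc W.coeff W.order = W.coeff W.order * (AddMonoidAlgebra.single ((j : ℤ), (0 : ℤ)) (1 : F) *
          AddMonoidAlgebra.single (-(j : ℤ), (0 : ℤ)) (1 : F)) := by rw [hinv, mul_one]
        _ = 0 := by rw [← mul_assoc, ← h3, zero_mul]
    exact hW0 (HahnSeries.coeff_order_eq_zero.1 h4)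
  refine ⟨W, hW, hWl, ?_⟩
  have h3 := hWl.coeff_mul hl
  rw [hW, hc, neg_add_cancel, HahnSeries.coeff_one, if_pos rfl] at h3
  calc W.coeff (-(j : ℝ)) = W.coeff (-(j : ℝ)) * (AddMonoidAlgebra.single ((j : ℤ), (0 : ℤ)) (1 : F) *
          AddMonoidAlgebra.single (-(j : ℤ), (0 : ℤ)) (1 : F)) := by rw [hinv, mul_one]
    _ = AddMonoidAlgebra.single (-(j : ℤ), (0 : ℤ)) (1 : F) := by
      rw [← mul_assoc, ← h3, one_mul]

/-- the polynomial as a function of exponents `(x, Y)` -/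
noncomputable def fs (D : ℕ) (P : F[X][X]) : (ℤ × ℤ) →₀ HK F :=
  ∑ b ∈ Finset.range (D + 1), ∑ a ∈ (P.coeff b).support,
    Finsupp.single ((a : ℤ), (b : ℤ)) (HahnSeries.C ((P.coeff b).coeff a))

theorem evU_fs (r : ℝ) (V : HR F) (D : ℕ) (P : F[X][X]) :
    evU (tz F 1 1 0) V (fs D P) =
      ∑ b ∈ Finset.range (D + 1), sg F r (C (P.coeff b)) * V ^ b := by
  unfold fs
  rw [Pool.Agent.TH266.NS.evU_sum]
  refine Finset.sum_congr rfl fun b _ => ?_
  rw [Pool.Agent.TH266.NS.evU_sum, sg_C, Finset.sum_mul]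
  refine Finset.sum_congr rfl fun a _ => ?_
  rw [Fij.evU_single, mul_assoc]
  simp

theorem fs_supp {μ ν B : ℝ} {P : F[X][X]} (hP : InT μ ν B P) (D : ℕ) :
    (↑(fs D P).support : Set (ℤ × ℤ)) ⊆ Reg 0 B μ ν := by
  intro z hz
  rw [Finset.mem_coe, Finsupp.mem_support_iff] at hz
  unfold fs at hz
  rw [Finsupp.coe_finsetSum, Finset.sum_apply] at hz
  obtain ⟨b, -, hb⟩ := Finset.exists_ne_zero_of_sum_ne_zero hz
  rw [Finsupp.coe_finsetSum, Finset.sum_apply] at hb
  obtain ⟨a, ha, hab⟩ := Finset.exists_ne_zero_of_sum_ne_zero hb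
  rw [mem_support_iff] at ha
  rw [Finsupp.single_apply] at hab
  split_ifs at hab with h
  · subst h
    obtain ⟨h1, h2⟩ := hP b a ha
    refine ⟨by simp, ?_, ?_⟩
    · simpa using h1
    · simpa using h2
  · exact absurd rfl hab

theorem evU_GG {r : ℝ} {j m D : ℕ} {P : F[X][X]} {W : HR F}
    (hW : W * sg F r (C (X ^ j) - X) = 1) :
    evU (tz F 1 1 0) (sg F r (C (1 + X ^ m)) * W) (fs D P) = W ^ D * sg F r (GG j m D P) := by
  rw [evU_fs r]
  unfold GG
  rw [map_sum, Finset.mul_sum]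
  refine Finset.sum_congr rfl fun b hb => ?_
  rw [Finset.mem_range] at hb
  obtain ⟨e, rfl⟩ : ∃ e, D = b + e := ⟨D - b, by omega⟩
  rw [Nat.add_sub_cancel_left, map_mul, map_mul, map_pow, map_mul, map_pow, map_pow, mul_pow,
    pow_add]
  have h1 : W ^ e * sg F r (C (X ^ j) - X) ^ e = 1 := by rw [← mul_pow, hW, one_pow]
  calc sg F r (C (P.coeff b)) * (sg F r (C (1 + X ^ m)) ^ b * W ^ b) =
      W ^ b * (W ^ e * sg F r (C (X ^ j) - X) ^ e) *
        (sg F r (C (P.coeff b)) * sg F r (C (1 + X ^ m)) ^ b) := by rw [h1]; ring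
    _ = _ := by ring

theorem exists_P {K : Par} {B : ℝ} {z : ℤ × ℤ} (hz : z ∈ Lds F K B) {W : HR F}
    (hW : W * sg F K.r (C (X ^ K.j) - X) = 1) (hWl : Low W (-(K.j : ℝ)))
    (hWc : W.coeff (-(K.j : ℝ)) = AddMonoidAlgebra.single (-(K.j : ℤ), 0) 1) :
    ∃ P : (ℤ × ℤ) →₀ HK F, (↑P.support : Set (ℤ × ℤ)) ⊆ Reg 0 B K.μ K.ν ∧
      Low (evU (tz F 1 1 0) (sg F K.r (C (1 + X ^ K.m)) * W) P) 0 ∧
      (evU (tz F 1 1 0) (sg F K.r (C (1 + X ^ K.m)) * W) P).coeff 0 =
        AddMonoidAlgebra.single z 1 := by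
  obtain ⟨P, D, a, β, hP, -, hL, rfl⟩ := hz
  obtain ⟨c, hc⟩ : ∃ c : F, c = ((GG K.j K.m D P).coeff a).coeff β := ⟨_, rfl⟩
  have hc0 : c ≠ 0 := by rw [hc]; exact hL.1
  have g1 := hWl.pow D
  have g2 := hWl.coeff_pow D
  have g3 := sg_low hL
  have g4 := sg_coeff hL
  rw [← hc] at g4
  have g5 := g1.mul g3
  have g6 := g1.coeff_mul g3
  rw [g2, g4, hWc] at g6
  have hpow : (AddMonoidAlgebra.single (-(K.j : ℤ), (0 : ℤ)) (1 : F)) ^ D =
      AddMonoidAlgebra.single (D * -(K.j : ℤ), (0 : ℤ)) (1 : F) := by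
    rw [AddMonoidAlgebra.single_pow]
    simp
  rw [hpow, AddMonoidAlgebra.single_mul_single, one_mul] at g6
  obtain ⟨e, he⟩ : ∃ e : ℝ, e = D * -(K.j : ℝ) + (K.r * a + β) := ⟨_, rfl⟩
  rw [← he] at g5 g6
  refine ⟨HahnSeries.single (-e) c⁻¹ • fs D P, ?_, ?_, ?_⟩
  · refine subset_trans ?_ (fs_supp hP D)
    intro z hz
    rw [Finset.mem_coe, Finsupp.mem_support_iff] at hz ⊢
    intro h
    apply hz
    rw [Finsupp.smul_apply, h, smul_zero]
  · rw [Pool.Agent.TH266.NS.evU_smul, evU_GG hW]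
    have h1 := (low_single (-e) c⁻¹).incl.mul g5
    rwa [neg_add_cancel] at h1
  · rw [Pool.Agent.TH266.NS.evU_smul, evU_GG hW]
    have h1 := (low_single (-e) c⁻¹).incl.coeff_mul g5
    rw [neg_add_cancel e, g6, Fij.incl_single, HahnSeries.coeff_single_same,
      AddMonoidAlgebra.single_mul_single, inv_mul_cancel₀ hc0] at h1
    have e : (0 : ℤ × ℤ) + (((D : ℤ) * -(K.j : ℤ), (0 : ℤ)) + ((β : ℤ), (a : ℤ))) =
        ((β : ℤ) - K.j * D, (a : ℤ)) := by
      rw [zero_add, Prod.mk_add_mk]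
      exact Prod.ext (by ring) (by simp)
    rw [e] at h1
    rw [Fij.incl_single]
    exact h1

/-- module `Trans` -/
theorem trans : TransT := by
  intro K B T hT ι w N h
  obtain ⟨T', hTS, hTN, k, _, _, x, y, hx, hy, hE⟩ := h
  obtain ⟨W, hW, hWl, hWc⟩ := exists_W (F := k) (rj K)
  rw [← hTN]
  refine Rk_of_family (U := tz k 1 1 0) (V := sg k K.r (C (1 + X ^ K.m)) * W) ?_ hx hy T' hE
    (S := Reg 0 B K.μ K.ν) ?_ fun z hz => exists_P (hT k (hTS hz)) hW hWl hWc
  · intro p q hp hq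
    have hm : 1 ≤ K.m := by
      have h1 := K.hq
      have h2 := K.hp
      have h3 := K.hμ
      have h4 := K.hν
      have h5 : (0 : ℝ) < K.m := by linarith
      exact_mod_cast h5
    constructor
    · intro h0
      have h1 := congrArg (fun s : HK k => s.coeff 1) h0
      simp only [evp_coeff, coeff_tz, HahnSeries.coeff_zero] at h1
      rw [show (AddMonoidAlgebra.single ((1 : ℤ), (0 : ℤ)) (1 : k)) = mon k (1, 0) from rfl,
        evL_mon] at h1
      simp at h1
      exact hp h1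
    · intro h0
      have h1 : evp hp hq (sg k K.r (C (1 + X ^ K.m))) = 0 := by
        have h2 : sg k K.r (C (1 + X ^ K.m)) =
            (sg k K.r (C (1 + X ^ K.m)) * W) * sg k K.r (C (X ^ K.j) - X) := by
          rw [mul_assoc, hW, mul_one]
        rw [h2, map_mul, h0, zero_mul]
      have h2 : sg k K.r (C (1 + X ^ K.m)) = 1 + tz k K.m K.m 0 := by
        rw [map_add, map_pow, map_add, map_pow, sg_CX, tz_pow]
        simp
      rw [h2] at h1
      have h3 := congrArg (fun s : HK k => s.coeff 0) h1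
      have hm0 : (0 : ℝ) < K.m := by exact_mod_cast hm
      simp only [evp_coeff, HahnSeries.coeff_add, HahnSeries.coeff_one, if_true,
        (low_tz (F := k) (K.m : ℝ) (K.m : ℤ) 0) 0 hm0, add_zero, map_one,
        HahnSeries.coeff_zero] at h3
      exact one_ne_zero h3
  · intro m hm
    obtain ⟨h1, h2, -⟩ := hm
    refine ⟨?_, h1⟩
    have h3 : (0 : ℝ) ≤ m.2 := by exact_mod_cast h1
    have h4 := mul_nonneg K.hμ h3
    have h5 : (0 : ℝ) ≤ m.1 := by linarith
    exact_mod_cast h5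

end Pool.Agent.J6H30.VT
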